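import Pool.Agent.Helper94.Tot.Goals

/-!
# The bilinear lemma (packet BL of MP_05f971_nt)
-/

set_option autoImplicit false

open Finset Filter Topology
open Pool.Agent.Helper94.Tot

namespace Pool.Agent.Helper14.Tot

/-- `2^(1/16)` -/
noncomputable def r0 : ℝ := (2 : ℝ) ^ ((1 : ℝ) / 16)

lemma r0_pow : r0 ^ 16 = 2 := by
  unfold r0
  rw [← Real.rpow_natCast, ← Real.rpow_mul (by norm_num)]
  norm_num

lemma r0_gt : 1 < r0 := Real.one_lt_rpow (by norm_num) (by norm_num)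

lemma ev_poly (c : ℝ) (j : ℕ) : ∀ᶠ n : ℕ in atTop, c * (n : ℝ) ^ j ≤ r0 ^ n := by
  have h := tendsto_pow_const_div_const_pow_of_one_lt j r0_gt
  have h2 : Tendsto (fun n : ℕ => c * ((n : ℝ) ^ j / r0 ^ n)) atTop (𝓝 (c * 0)) := h.const_mul c
  rw [mul_zero] at h2
  filter_upwards [h2.eventually (gt_mem_nhds one_pos)] with n hn
  have h3 : 0 < r0 ^ n := pow_pos (by linarith [r0_gt]) n
  rw [← mul_div_assoc, div_lt_one h3] at hn
  exact hn.le

lemma ev_z (k : ℕ) (hk : 1 ≤ k) : ∀ᶠ n : ℕ in atTop, n ^ 30 ≤ 2 ^ (n / k) := by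
  have h := tendsto_pow_const_div_const_pow_of_one_lt 30 (one_lt_two : (1 : ℝ) < 2)
  have h2 : Tendsto (fun n : ℕ => (2 * (k : ℝ) ^ 30) * ((n : ℝ) ^ 30 / 2 ^ n)) atTop
      (𝓝 ((2 * (k : ℝ) ^ 30) * 0)) := h.const_mul _
  rw [mul_zero] at h2
  obtain ⟨q0, hq0⟩ := eventually_atTop.mp (h2.eventually (gt_mem_nhds one_pos))
  filter_upwards [eventually_ge_atTop (k * q0)] with n hn
  set q := n / k with hq
  have hq1 : q0 ≤ q := (Nat.le_div_iff_mul_le hk).2 (by rw [mul_comm]; exact hn)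
  have h1 : n < k * (q + 1) := Nat.lt_mul_div_succ n hk
  have h3 := hq0 (q + 1) (by omega)
  rw [← mul_div_assoc, div_lt_one (by positivity)] at h3
  have h4 : (n : ℝ) ^ 30 ≤ 2 ^ q := by
    have h5 : (n : ℝ) ≤ (k : ℝ) * ((q + 1 : ℕ) : ℝ) := by exact_mod_cast h1.le
    have h6 : (n : ℝ) ^ 30 ≤ ((k : ℝ) * ((q + 1 : ℕ) : ℝ)) ^ 30 :=
      pow_le_pow_left₀ (by positivity) h5 30
    rw [mul_pow] at h6
    rw [pow_succ (2 : ℝ) q] at h3
    nlinarith only [h3, h6]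
  exact_mod_cast h4

lemma ev_log (c : ℝ) : ∀ᶠ n : ℕ in atTop, 1 + c * Real.log n ≤ n := by
  have h := Real.isLittleO_log_id_atTop.bound (show (0 : ℝ) < 1 / (2 * (|c| + 1)) by positivity)
  have h2 := tendsto_natCast_atTop_atTop (R := ℝ) |>.eventually h
  filter_upwards [h2, eventually_ge_atTop 2] with n hn hn2
  have hn2' : (2 : ℝ) ≤ n := by exact_mod_cast hn2
  simp only [id, Real.norm_eq_abs] at hn
  rw [abs_of_nonneg (show (0 : ℝ) ≤ n by linarith)] at hn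
  have h3 : c * Real.log n ≤ |c| * |Real.log n| := by
    rw [← abs_mul]
    exact le_abs_self _
  have h4 : |c| * |Real.log n| ≤ |c| * (1 / (2 * (|c| + 1)) * n) := by gcongr
  have h5 : |c| * (1 / (2 * (|c| + 1)) * n) ≤ n / 2 := by
    have h6 : |c| / (|c| + 1) ≤ 1 := by
      rw [div_le_one (by positivity)]
      linarith
    have h7 : |c| * (1 / (2 * (|c| + 1)) * n) = |c| / (|c| + 1) * (n / 2) := by
      field_simp
    rw [h7]
    have : (0 : ℝ) ≤ n / 2 := by linarith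
    nlinarith
  linarith

lemma SS_prime {D : Finset ℕ} {N v : ℕ} (h1 : 1 ∈ D) (hN : N.Prime)
    (hD : ∀ d ∈ D, ∀ p, p.Prime → p ∣ d → p ≤ v) (hv : v < N) : SS D N = 1 := by
  unfold SS
  have h : D.filter (fun d => d ∣ N) = {1} := by
    ext d
    simp only [mem_filter, mem_singleton]
    constructor
    · rintro ⟨hd, hdN⟩
      rcases (Nat.dvd_prime hN).mp hdN with h | h
      · exact h
      · exfalso
        have := hD d hd N hN (by rw [h])
        omega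
    · rintro rfl
      exact ⟨h1, one_dvd _⟩
  rw [h]
  simp

lemma card_pd (u v a s : ℕ) (ha : a ≠ 0) (h : a ≤ 2 ^ s) :
    ((Ioc u v).filter (fun p => p.Prime ∧ p ∣ a)).card ≤ s := by
  have h1 : (Ioc u v).filter (fun p => p.Prime ∧ p ∣ a) ⊆ a.primeFactors := by
    intro p hp
    rw [mem_filter] at hp
    exact Nat.mem_primeFactors.mpr ⟨hp.2.1, hp.2.2, ha⟩
  have h2 : 2 ^ a.primeFactors.card ≤ ∏ p ∈ a.primeFactors, p :=
    Finset.pow_card_le_prod _ _ _ (fun p hp => (Nat.prime_of_mem_primeFactors hp).two_le)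
  have h3 : ∏ p ∈ a.primeFactors, p ≤ a := Nat.le_of_dvd (Nat.pos_of_ne_zero ha)
    (Nat.prod_primeFactors_dvd a)
  have h4 : 2 ^ a.primeFactors.card ≤ 2 ^ s := h2.trans (h3.trans h)
  exact (card_le_card h1).trans ((Nat.pow_le_pow_iff_right (by norm_num)).mp h4)

/-- at most one prime in `(4,z1]` divides `b k` -/
lemma card_bk (z1 b k : ℕ) (hb : b = 1 ∨ b.Prime) (hk : k.Prime) (hz : z1 < k) :
    ((Ioc 4 z1).filter (fun p => p.Prime ∧ p ∣ b * k)).card ≤ 1 := by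
  apply Finset.card_le_one.mpr
  have key : ∀ p ∈ (Ioc 4 z1).filter (fun p => p.Prime ∧ p ∣ b * k), p = b := by
    intro p hp
    rw [mem_filter, mem_Ioc] at hp
    rcases (Nat.Prime.dvd_mul hp.2.1).mp hp.2.2 with h | h
    · rcases hb with hb | hb
      · rw [hb] at h
        exact absurd (Nat.dvd_one.mp h) hp.2.1.one_lt.ne'
      · exact (Nat.prime_dvd_prime_iff_eq hp.2.1 hb).mp h
    · have := (Nat.prime_dvd_prime_iff_eq hp.2.1 hk).mp h
      omega
  intro p hp q hq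
  rw [key p hp, key q hq]

/-- the reduction to a product of sieve weights, pointwise -/
lemma pointwise {D1 D2 : Finset ℕ} {z1 z b m k : ℕ} (hz : z1 ≤ z) (h11 : 1 ∈ D1) (h12 : 1 ∈ D2)
    (hD1 : ∀ d ∈ D1, ∀ p, p.Prime → p ∣ d → p ≤ z1) (hD2 : ∀ d ∈ D2, ∀ p, p.Prime → p ∣ d → p ≤ z)
    (hS1 : ∀ n : ℕ, n ≠ 0 → 0 ≤ SS D1 n) (hS2 : ∀ n : ℕ, n ≠ 0 → 0 ≤ SS D2 n)
    (hb : 1 ≤ b) (hm : 1 ≤ m) (w : ℕ → ℝ) (hw : ∀ k, 0 ≤ w k ∧ w k ≤ 1) :
    (if k.Prime ∧ (b * m * k + 1).Prime then w k else 0) ≤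
      (if k.Prime ∧ z < k then w k else 0) * SS D1 (b * m * k + 1) * SS D2 (b * m * k + 1) +
        (if k ≤ z then 1 else 0) := by
  have hp1 := hS1 (b * m * k + 1) (by omega)
  have hp2 := hS2 (b * m * k + 1) (by omega)
  have hwk := hw k
  by_cases hkz : k ≤ z
  · rw [if_neg (show ¬ (k.Prime ∧ z < k) by omega), if_pos hkz, zero_mul, zero_mul, zero_add]
    split_ifs
    · exact hwk.2
    · exact zero_le_one
  · push Not at hkz
    rw [if_neg (show ¬ k ≤ z by omega), add_zero]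
    by_cases hk : k.Prime
    · rw [if_pos (show k.Prime ∧ z < k from ⟨hk, hkz⟩)]
      by_cases hN : (b * m * k + 1).Prime
      · rw [if_pos ⟨hk, hN⟩]
        have hbig : z < b * m * k + 1 := by
          have : 1 * 1 * k ≤ b * m * k := by gcongr
          omega
        rw [SS_prime h11 hN hD1 (by omega), SS_prime h12 hN hD2 hbig]
        simp
      · rw [if_neg (fun h => hN h.2)]
        have := hwk.1
        positivity
    · rw [if_neg (fun h => hk h.1), if_neg (fun h => hk h.1)]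
      simp

/-- the reduction, summed -/
lemma reduction {D1 D2 : Finset ℕ} {z1 z b M K : ℕ} (hz : z1 ≤ z) (h11 : 1 ∈ D1) (h12 : 1 ∈ D2)
    (hD1 : ∀ d ∈ D1, ∀ p, p.Prime → p ∣ d → p ≤ z1) (hD2 : ∀ d ∈ D2, ∀ p, p.Prime → p ∣ d → p ≤ z)
    (hS1 : ∀ n : ℕ, n ≠ 0 → 0 ≤ SS D1 n) (hS2 : ∀ n : ℕ, n ≠ 0 → 0 ≤ SS D2 n)
    (hb : 1 ≤ b) (hM : 1 ≤ M) (w : ℕ → ℝ) (hw : ∀ k, 0 ≤ w k ∧ w k ≤ 1) :
    ∑ m ∈ Ico M (2 * M), ∑ k ∈ (Icc 1 K).filter (fun k => k.Prime ∧ (b * m * k + 1).Prime), w k ≤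
      ∑ m ∈ Ico M (2 * M), ∑ k ∈ Icc 1 K, (if k.Prime ∧ z < k then w k else 0) *
        SS D1 (b * m * k + 1) * SS D2 (b * m * k + 1) + M * z := by
  have h1 : ∀ m ∈ Ico M (2 * M),
      ∑ k ∈ (Icc 1 K).filter (fun k => k.Prime ∧ (b * m * k + 1).Prime), w k ≤
      ∑ k ∈ Icc 1 K, (if k.Prime ∧ z < k then w k else 0) *
        SS D1 (b * m * k + 1) * SS D2 (b * m * k + 1) + z := by
    intro m hm
    rw [mem_Ico] at hm
    rw [Finset.sum_filter]
    have h2 : ∑ k ∈ Icc 1 K, (if k ≤ z then (1 : ℝ) else 0) ≤ z := by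
      rw [← Finset.sum_filter, Finset.sum_const, nsmul_eq_mul, mul_one]
      have h3 : (Icc 1 K).filter (fun k => k ≤ z) ⊆ Icc 1 z := by
        intro k hk
        rw [mem_filter, mem_Icc] at hk
        exact mem_Icc.mpr ⟨hk.1.1, hk.2⟩
      have h4 := card_le_card h3
      rw [Nat.card_Icc] at h4
      have h5 : ((Icc 1 K).filter (fun k => k ≤ z)).card ≤ z := by omega
      exact_mod_cast h5
    calc ∑ k ∈ Icc 1 K, (if k.Prime ∧ (b * m * k + 1).Prime then w k else 0) ≤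
        ∑ k ∈ Icc 1 K, ((if k.Prime ∧ z < k then w k else 0) * SS D1 (b * m * k + 1) *
          SS D2 (b * m * k + 1) + (if k ≤ z then 1 else 0)) :=
          Finset.sum_le_sum fun k _ => pointwise hz h11 h12 hD1 hD2 hS1 hS2 hb (by omega) w hw
      _ = _ := Finset.sum_add_distrib
      _ ≤ _ := by gcongr
  calc _ ≤ ∑ m ∈ Ico M (2 * M), (∑ k ∈ Icc 1 K, (if k.Prime ∧ z < k then w k else 0) *
        SS D1 (b * m * k + 1) * SS D2 (b * m * k + 1) + z) := Finset.sum_le_sum h1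
    _ = _ := by
      rw [Finset.sum_add_distrib, Finset.sum_const, Nat.card_Ico, nsmul_eq_mul]
      congr 2
      have : 2 * M - M = M := by omega
      rw [this]

/-- the main term -/
lemma main_term {D1 D2 : Finset ℕ} {b M K : ℕ} {smax L : ℝ}
    (hS1 : ∀ n : ℕ, n ≠ 0 → 0 ≤ SS D1 n) (hsmax : 0 ≤ smax)
    (hs2 : ∀ m ∈ Ico M (2 * M), sg D2 (b * m) ≤ smax)
    (w' : ℕ → ℝ) (hw' : ∀ k, 0 ≤ w' k)
    (hL : ∀ k ∈ Icc 1 K, w' k ≠ 0 → ∑ m ∈ Ico M (2 * M), SS D1 (b * m * k + 1) ≤ L) :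
    ∑ m ∈ Ico M (2 * M), ∑ k ∈ Icc 1 K, w' k * SS D1 (b * m * k + 1) * sg D2 (b * m) ≤
      smax * L * ∑ k ∈ Icc 1 K, w' k := by
  calc ∑ m ∈ Ico M (2 * M), ∑ k ∈ Icc 1 K, w' k * SS D1 (b * m * k + 1) * sg D2 (b * m) ≤
      ∑ m ∈ Ico M (2 * M), ∑ k ∈ Icc 1 K, w' k * SS D1 (b * m * k + 1) * smax := by
        refine Finset.sum_le_sum fun m hm => Finset.sum_le_sum fun k _ => ?_
        have h1 := hS1 (b * m * k + 1) (by omega)
        have h2 := hw' k
        have h3 := hs2 m hm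
        gcongr
    _ = smax * ∑ k ∈ Icc 1 K, w' k * ∑ m ∈ Ico M (2 * M), SS D1 (b * m * k + 1) := by
        rw [Finset.sum_comm, Finset.mul_sum]
        refine Finset.sum_congr rfl fun k _ => ?_
        rw [Finset.mul_sum, Finset.mul_sum]
        refine Finset.sum_congr rfl fun m _ => ?_
        ring
    _ ≤ smax * ∑ k ∈ Icc 1 K, w' k * L := by
        refine mul_le_mul_of_nonneg_left (Finset.sum_le_sum fun k hk => ?_) hsmax
        rcases eq_or_ne (w' k) 0 with h | h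
        · rw [h, zero_mul, zero_mul]
        · exact mul_le_mul_of_nonneg_left (hL k hk h) (hw' k)
    _ = smax * L * ∑ k ∈ Icc 1 K, w' k := by
        rw [← Finset.sum_mul]
        ring

/-- the numerical estimates -/
lemma numeric {n E b M K z Y1 Y2 z1 : ℕ} {x : ℝ} (hx : x ^ 16 = 2 ^ n) (hx1 : 2 ≤ x) (hn : 8 ≤ n)
    (hb1 : 1 ≤ b) (hb : b ^ 2 ≤ 2 ^ (n + 1)) (hMA : n ^ (60 * E + 60) ≤ M) (hM8 : M ^ 8 ≤ 2 ^ n)
    (hz : (z : ℝ) ≤ x) (hY2 : (Y2 : ℝ) ≤ x) (hY21 : 1 ≤ Y2) (hK : K = 2 ^ (n + 1) / (b * M))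
    (hz1 : z1 = n ^ 30) (hY1 : Y1 = n ^ (30 * E))
    (hlog2 : 1 + Real.log Y2 ≤ n) (hlog1 : 1 + Real.log Y1 ≤ n)
    (ha : 8 * (n : ℝ) ^ 10 ≤ x ^ 5) (hb2 : 64 * (n : ℝ) ^ (30 * E + 10) ≤ x ^ 2) :
    1 ≤ K ∧ (M : ℝ) * z ≤ 1 / 4 * (2 ^ n / (b * (n : ℝ) ^ 10)) ∧
    4 * K * M * (1 + Real.log Y2) ^ 2 * ((1 + Real.log Y1) / √z1 + Y1 / √M) + 4 * √K * Y2 * M * Y1
      ≤ 1 / 2 * (2 ^ n / (b * (n : ℝ) ^ 10)) := by
  have hn0 : (8 : ℝ) ≤ n := by exact_mod_cast hn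
  have hM1 : 1 ≤ M := by
    have : 1 ≤ n ^ (60 * E + 60) := Nat.one_le_pow _ _ (by omega)
    omega
  have hbR : (1 : ℝ) ≤ b := by exact_mod_cast hb1
  have hMR : (1 : ℝ) ≤ M := by exact_mod_cast hM1
  have hx0 : 0 < x := by linarith only [hx1]
  -- b ≤ 2 x^8
  have hb8 : (b : ℝ) ≤ 2 * x ^ 8 := by
    have h1 : (b : ℝ) ^ 2 ≤ 2 * x ^ 16 := by
      rw [hx]
      have h2 : (b : ℝ) ^ 2 ≤ 2 ^ (n + 1) := by exact_mod_cast hb
      rw [pow_succ (2 : ℝ) n] at h2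
      linarith only [h2]
    have h3 : (b : ℝ) ^ 2 ≤ (2 * x ^ 8) ^ 2 := by
      have h4 : (2 * x ^ 8) ^ 2 = 4 * x ^ 16 := by ring
      rw [h4]
      have : 0 < x ^ 16 := by positivity
      linarith only [h1, this]
    exact (pow_le_pow_iff_left₀ (by positivity) (by positivity) two_ne_zero).mp h3
  have hM2 : (M : ℝ) ≤ x ^ 2 := by
    have h1 : (M : ℝ) ^ 8 ≤ (x ^ 2) ^ 8 := by
      have h2 : (M : ℝ) ^ 8 ≤ 2 ^ n := by exact_mod_cast hM8
      rw [← pow_mul]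
      norm_num
      rw [hx]
      exact h2
    exact (pow_le_pow_iff_left₀ (by positivity) (by positivity) (by norm_num)).mp h1
  -- K
  have hKl : x ^ 6 < K + 1 := by
    have h1 : 2 ^ (n + 1) < b * M * (K + 1) := by
      rw [hK]
      exact Nat.lt_mul_div_succ _ (by positivity)
    have h2 : (2 : ℝ) * x ^ 16 < b * M * (K + 1) := by
      rw [hx]
      have h3 : (2 : ℝ) ^ (n + 1) < b * M * (K + 1) := by exact_mod_cast h1
      rw [pow_succ (2 : ℝ) n] at h3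
      linarith only [h3]
    have h3 : (b : ℝ) * M * (K + 1) ≤ 2 * x ^ 8 * x ^ 2 * (K + 1) := by gcongr
    have h4 : 2 * x ^ 10 * x ^ 6 < 2 * x ^ 10 * (K + 1) := by
      calc 2 * x ^ 10 * x ^ 6 = 2 * x ^ 16 := by ring
        _ < (b : ℝ) * M * (K + 1) := h2
        _ ≤ _ := h3
        _ = _ := by ring
    exact lt_of_mul_lt_mul_left h4 (by positivity)
  have hx6 : (2 : ℝ) ≤ x ^ 6 := by
    calc (2 : ℝ) ≤ 2 ^ 6 := by norm_num
      _ ≤ x ^ 6 := by gcongr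
  have hKR : x ^ 6 / 2 ≤ K := by linarith only [hKl, hx6]
  have hK1 : 1 ≤ K := by
    have : (1 : ℝ) ≤ K := by linarith only [hKl, hx6]
    exact_mod_cast this
  have hKM : (K : ℝ) * M ≤ 2 * 2 ^ n / b := by
    rw [le_div_iff₀ (by positivity)]
    have h1 : b * M * K ≤ 2 ^ (n + 1) := by
      rw [hK]
      exact Nat.mul_div_le _ _
    have h2 : (b : ℝ) * M * K ≤ 2 ^ (n + 1) := by exact_mod_cast h1
    rw [pow_succ (2 : ℝ) n] at h2
    linarith only [h2]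
  have hsK0 : 0 < √(K : ℝ) := Real.sqrt_pos.mpr (by linarith only [hKl, hx6])
  have hsK : x ^ 3 / 2 ≤ √(K : ℝ) := by
    apply Real.le_sqrt_of_sq_le
    have : (x ^ 3 / 2) ^ 2 = x ^ 6 / 4 := by ring
    rw [this]
    have : 0 < x ^ 6 := by positivity
    linarith only [hKl, hx6]
  refine ⟨hK1, ?_, ?_⟩
  · -- M z
    have h1 : (M : ℝ) * z ≤ x ^ 2 * x := by gcongr
    have h2 : 1 / 4 * (2 ^ n / (b * (n : ℝ) ^ 10)) = 2 ^ n / (4 * b * (n : ℝ) ^ 10) := by
      field_simp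
    rw [h2, le_div_iff₀ (by positivity), ← hx]
    calc (M : ℝ) * z * (4 * b * (n : ℝ) ^ 10) ≤ x ^ 2 * x * (4 * (2 * x ^ 8) * (n : ℝ) ^ 10) := by
          gcongr
      _ = x ^ 11 * (8 * (n : ℝ) ^ 10) := by ring
      _ ≤ x ^ 11 * x ^ 5 := by gcongr
      _ = x ^ 16 := by ring
  · have hsz : √(z1 : ℝ) = (n : ℝ) ^ 15 := by
      rw [hz1]
      push_cast
      rw [show (n : ℝ) ^ 30 = ((n : ℝ) ^ 15) ^ 2 by ring]
      exact Real.sqrt_sq (by positivity)
    have hsM : (n : ℝ) ^ (30 * E + 30) ≤ √(M : ℝ) := by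
      apply Real.le_sqrt_of_sq_le
      rw [← pow_mul]
      have h1 : (n : ℝ) ^ (60 * E + 60) ≤ M := by exact_mod_cast hMA
      calc (n : ℝ) ^ ((30 * E + 30) * 2) = (n : ℝ) ^ (60 * E + 60) := by ring_nf
        _ ≤ M := h1
    have hsM0 : 0 < √(M : ℝ) := lt_of_lt_of_le (by positivity) hsM
    have hl2 : 0 ≤ 1 + Real.log Y2 := by
      have : 0 ≤ Real.log (Y2 : ℝ) := Real.log_natCast_nonneg _
      linarith only [this]
    have hl1 : 0 ≤ 1 + Real.log Y1 := by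
      have : 0 ≤ Real.log (Y1 : ℝ) := Real.log_natCast_nonneg _
      linarith only [this]
    have hq : (1 + Real.log Y1) / √z1 + Y1 / √M ≤ 2 / (n : ℝ) ^ 14 := by
      have h1 : (1 + Real.log Y1) / √z1 ≤ 1 / (n : ℝ) ^ 14 := by
        rw [hsz, div_le_div_iff₀ (by positivity) (by positivity)]
        calc (1 + Real.log Y1) * (n : ℝ) ^ 14 ≤ n * (n : ℝ) ^ 14 := by gcongr
          _ = 1 * (n : ℝ) ^ 15 := by ring
      have h2 : (Y1 : ℝ) / √M ≤ 1 / (n : ℝ) ^ 14 := by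
        rw [div_le_div_iff₀ hsM0 (by positivity), hY1]
        push_cast
        calc (n : ℝ) ^ (30 * E) * (n : ℝ) ^ 14 = (n : ℝ) ^ (30 * E + 14) := by rw [pow_add]
          _ ≤ (n : ℝ) ^ (30 * E + 30) := by
            apply pow_le_pow_right₀ (by linarith only [hn0])
            omega
          _ ≤ 1 * √(M : ℝ) := by rw [one_mul]; exact hsM
      have h3 : (2 : ℝ) / (n : ℝ) ^ 14 = 1 / (n : ℝ) ^ 14 + 1 / (n : ℝ) ^ 14 := by ring
      rw [h3]
      exact add_le_add h1 h2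
    have hB : 1 / 2 * (2 ^ n / (b * (n : ℝ) ^ 10)) =
        1 / 4 * (2 ^ n / (b * (n : ℝ) ^ 10)) + 1 / 4 * (2 ^ n / (b * (n : ℝ) ^ 10)) := by ring
    rw [hB]
    apply add_le_add
    · calc 4 * K * M * (1 + Real.log Y2) ^ 2 * ((1 + Real.log Y1) / √z1 + Y1 / √M) ≤
            4 * (K * M) * (n : ℝ) ^ 2 * (2 / (n : ℝ) ^ 14) := by
              rw [mul_assoc 4 (K : ℝ) M]
              have h0 : 0 ≤ (1 + Real.log Y1) / √z1 + Y1 / √M := by positivity
              gcongr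
        _ ≤ 4 * (2 * 2 ^ n / b) * (n : ℝ) ^ 2 * (2 / (n : ℝ) ^ 14) := by gcongr
        _ = (16 / (n : ℝ) ^ 2) * (2 ^ n / (b * (n : ℝ) ^ 10)) := by
              field_simp
              norm_num
        _ ≤ 1 / 4 * (2 ^ n / (b * (n : ℝ) ^ 10)) := by
              gcongr ?_ * _
              rw [div_le_div_iff₀ (by positivity) (by positivity)]
              nlinarith only [hn0]
    · have h1 : √(K : ℝ) ≤ 2 * K / x ^ 3 := by
        rw [le_div_iff₀ (by positivity)]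
        have h2 : √(K : ℝ) * √(K : ℝ) = K := Real.mul_self_sqrt (by linarith only [hKl, hx6])
        nlinarith only [h2, hsK0, hsK]
      calc 4 * √(K : ℝ) * Y2 * M * Y1 ≤ 4 * (2 * K / x ^ 3) * x * M * Y1 := by gcongr
        _ = 8 * (K * M) * Y1 / x ^ 2 := by
            field_simp
            ring
        _ ≤ 8 * (2 * 2 ^ n / b) * Y1 / x ^ 2 := by gcongr
        _ = (16 * 2 ^ n / b) * (Y1 / x ^ 2) := by ring
        _ ≤ (16 * 2 ^ n / b) * (1 / (64 * (n : ℝ) ^ 10)) := by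
            gcongr ?_ * ?_
            rw [div_le_div_iff₀ (by positivity) (by positivity), hY1]
            push_cast
            rw [pow_add] at hb2
            linarith only [hb2]
        _ = 1 / 4 * (2 ^ n / (b * (n : ℝ) ^ 10)) := by
            field_simp
            norm_num

theorem pf_BL (hBH : StmtBH) (hPA : StmtPA) (hSum : StmtSum) (hErr : StmtErr) : StmtBL := by
  obtain ⟨E, C0, hC0, hBH⟩ := hBH
  obtain ⟨CP, hCP, hPA⟩ := hPA
  have hkap1 : 1 ≤ 16 * (E + 1) := by omega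
  obtain ⟨n0, hn0⟩ : ∃ n0 : ℕ, ∀ n ≥ n0, 8 ≤ n ∧ 16 * (E + 1) ≤ n ∧
      n ^ 30 ≤ 2 ^ (n / (16 * (E + 1))) ∧ 8 * (n : ℝ) ^ 10 ≤ r0 ^ n ∧
      64 * (n : ℝ) ^ (30 * E + 10) ≤ r0 ^ n ∧ 1 + (30 * E : ℝ) * Real.log n ≤ n ∧
      2 * (n : ℝ) ^ 0 ≤ r0 ^ n := by
    apply eventually_atTop.mp
    filter_upwards [eventually_ge_atTop 8, eventually_ge_atTop (16 * (E + 1)),
      ev_z (16 * (E + 1)) hkap1, ev_poly 8 10, ev_poly 64 (30 * E + 10), ev_log (30 * E),
      ev_poly 2 0] with n h1 h2 h3 h4 h5 h6 h7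
    exact ⟨h1, h2, h3, h4, h5, h6, h7⟩
  have hl4 : 0 < Real.log 4 := Real.log_pos (by norm_num)
  have hl2 : 0 < Real.log 2 := Real.log_pos (by norm_num)
  set c1 : ℝ := C0 * CP * Real.exp 4 with hc1
  set c2 : ℝ := C0 * CP * Real.log 4 * Real.exp (1 / 2) + 1 with hc2
  have hc1p : 0 < c1 := by positivity
  have hc2p : 0 < c2 := by positivity
  refine ⟨8, 60 * E + 60, n0, c1 * c2 * (2 * (16 * (E + 1)) / Real.log 2), by norm_num,
    by positivity, ?_⟩
  intro n hn b hb hb2 M hMA hM8 w hw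
  obtain ⟨h8, hkap, hz1z, ha, hb', hlog, hx2⟩ := hn0 n hn
  rw [pow_zero, mul_one] at hx2
  set kap : ℕ := 16 * (E + 1) with hkapdef
  have hn0R : (8 : ℝ) ≤ n := by exact_mod_cast h8
  have hb1 : 1 ≤ b := by
    rcases hb with h | h
    · omega
    · exact h.one_lt.le
  have hM1 : 1 ≤ M := by
    have : 1 ≤ n ^ (60 * E + 60) := Nat.one_le_pow _ _ (by omega)
    omega
  have hMR : (1 : ℝ) ≤ M := by exact_mod_cast hM1
  have hx : (r0 ^ n) ^ 16 = 2 ^ n := by rw [← pow_mul, mul_comm, pow_mul, r0_pow]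
  have hr1 : (1 : ℝ) ≤ r0 ^ n := by linarith only [hx2]
  set z1 : ℕ := n ^ 30 with hz1
  set z : ℕ := 2 ^ (n / kap) with hz
  set K : ℕ := 2 ^ (n + 1) / (b * M) with hK
  have hz1n : 2 * n ≤ z1 := by
    rw [hz1]
    calc 2 * n ≤ n * n := Nat.mul_le_mul_right n (by omega)
      _ = n ^ 2 := (pow_two n).symm
      _ ≤ n ^ 30 := Nat.pow_le_pow_right (by omega) (by norm_num)
  have h4z1 : 4 ≤ z1 := by omega
  obtain ⟨D1, h11, hD1, hS1, hs1⟩ := hBH 4 z1 le_rfl h4z1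
  obtain ⟨D2, h12, hD2, hS2, hs2⟩ := hBH z1 z h4z1 hz1z
  have hz1R : (1 : ℝ) < z1 := by exact_mod_cast (show 1 < z1 by omega)
  have hzR : (1 : ℝ) < z := by exact_mod_cast (show 1 < z by omega)
  have hlz1 : 0 < Real.log z1 := Real.log_pos hz1R
  have hlz : 0 < Real.log z := Real.log_pos hzR
  -- sizes of z
  have hzE : (z : ℝ) ^ (E + 1) ≤ r0 ^ n := by
    have h1 : ((z : ℝ) ^ (E + 1)) ^ 16 ≤ (r0 ^ n) ^ 16 := by
      rw [hx, hz]
      push_cast
      rw [← pow_mul, ← pow_mul]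
      apply pow_le_pow_right₀ (by norm_num)
      have := Nat.div_mul_le_self n kap
      calc n / kap * ((E + 1) * 16) = n / kap * kap := by rw [hkapdef]; ring
        _ ≤ n := this
    exact (pow_le_pow_iff_left₀ (by positivity) (by positivity) (by norm_num)).mp h1
  have hzx : (z : ℝ) ≤ r0 ^ n := by
    calc (z : ℝ) = (z : ℝ) ^ 1 := (pow_one _).symm
      _ ≤ (z : ℝ) ^ (E + 1) := pow_le_pow_right₀ hzR.le (by omega)
      _ ≤ r0 ^ n := hzE
  have hY2x : ((z ^ E : ℕ) : ℝ) ≤ r0 ^ n := by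
    push_cast
    calc (z : ℝ) ^ E ≤ (z : ℝ) ^ (E + 1) := pow_le_pow_right₀ hzR.le (by omega)
      _ ≤ r0 ^ n := hzE
  have hlogz : Real.log z = (n / kap : ℕ) * Real.log 2 := by
    rw [hz]
    push_cast
    rw [Real.log_pow]
  have hlog2lt : Real.log 2 ≤ 1 := by
    have := Real.log_two_lt_d9
    linarith only [hl2, this]
  have hlogY2 : 1 + Real.log ((z ^ E : ℕ) : ℝ) ≤ n := by
    push_cast
    rw [Real.log_pow, hlogz]
    have h1 : (E : ℝ) * ((n / kap : ℕ) : ℝ) ≤ n / 16 := by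
      have h2 : (E + 1) * (n / kap) * 16 ≤ n := by
        have := Nat.div_mul_le_self n kap
        calc (E + 1) * (n / kap) * 16 = n / kap * kap := by rw [hkapdef]; ring
          _ ≤ n := this
      have h3 : ((E : ℝ) + 1) * ((n / kap : ℕ) : ℝ) * 16 ≤ n := by exact_mod_cast h2
      have h4 : (0 : ℝ) ≤ ((n / kap : ℕ) : ℝ) := by positivity
      rw [le_div_iff₀ (by norm_num)]
      nlinarith only [h3]
    have h2 : (E : ℝ) * (((n / kap : ℕ) : ℝ) * Real.log 2) ≤ n / 16 := by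
      have h3 : 0 ≤ (E : ℝ) * ((n / kap : ℕ) : ℝ) := by positivity
      calc (E : ℝ) * (((n / kap : ℕ) : ℝ) * Real.log 2) =
          (E : ℝ) * ((n / kap : ℕ) : ℝ) * Real.log 2 := by ring
        _ ≤ (E : ℝ) * ((n / kap : ℕ) : ℝ) * 1 := by gcongr
        _ ≤ n / 16 := by linarith only [h1]
    linarith only [hn0R, h2]
  have hlogY1 : 1 + Real.log ((n ^ (30 * E) : ℕ) : ℝ) ≤ n := by
    push_cast
    rw [Real.log_pow]
    push_cast
    exact hlog
  obtain ⟨hK1, hMz, herr⟩ := numeric (E := E) (b := b) (M := M) (K := K) (z := z)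
    (Y1 := n ^ (30 * E)) (Y2 := z ^ E) (z1 := z1) hx hx2 h8 hb1 hb2 hMA hM8 hzx hY2x
    (Nat.one_le_pow _ _ (by omega)) hK hz1 rfl hlogY2 hlogY1
    (ha.trans (by
      calc r0 ^ n = (r0 ^ n) ^ 1 := (pow_one _).symm
        _ ≤ (r0 ^ n) ^ 5 := pow_le_pow_right₀ hr1 (by norm_num)))
    (hb'.trans (by
      calc r0 ^ n = (r0 ^ n) ^ 1 := (pow_one _).symm
        _ ≤ (r0 ^ n) ^ 2 := pow_le_pow_right₀ hr1 (by norm_num)))
  -- the reduction
  have hD1p : ∀ d ∈ D1, ∀ p, p.Prime → p ∣ d → p ≤ z1 := fun d hd p hp hpd =>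
    ((hD1 d hd).2.2 p hp hpd).2
  have hD2p : ∀ d ∈ D2, ∀ p, p.Prime → p ∣ d → p ≤ z := fun d hd p hp hpd =>
    ((hD2 d hd).2.2 p hp hpd).2
  have hred := reduction (K := K) hz1z h11 h12 hD1p hD2p hS1 hS2 hb1 hM1 w hw
  set w' : ℕ → ℝ := fun k => if k.Prime ∧ z < k then w k else 0 with hw'
  have hw'01 : ∀ k, 0 ≤ w' k ∧ w' k ≤ 1 := by
    intro k
    simp only [hw']
    split_ifs
    · exact hw k
    · exact ⟨le_rfl, zero_le_one⟩
  -- splitting
  have hsplit : ∑ m ∈ Ico M (2 * M), ∑ k ∈ Icc 1 K, w' k *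
        SS D1 (b * m * k + 1) * SS D2 (b * m * k + 1) =
      ∑ m ∈ Ico M (2 * M), ∑ k ∈ Icc 1 K, w' k * SS D1 (b * m * k + 1) * sg D2 (b * m) +
      ∑ m ∈ Ico M (2 * M), ∑ k ∈ Icc 1 K,
        w' k * SS D1 (b * m * k + 1) * (SS D2 (b * m * k + 1) - sg D2 (b * m)) := by
    rw [← Finset.sum_add_distrib]
    refine Finset.sum_congr rfl fun m _ => ?_
    rw [← Finset.sum_add_distrib]
    refine Finset.sum_congr rfl fun k _ => ?_
    ring
  -- the error term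
  have hz1E : z1 ^ E = n ^ (30 * E) := by rw [hz1, ← pow_mul]
  have herr2 := hErr D1 D2 (n ^ (30 * E)) (z ^ E) z1 (Nat.one_le_pow _ _ (by omega))
    (Nat.one_le_pow _ _ (by omega)) (by omega)
    (fun d hd => ⟨(hD1 d hd).1, by rw [← hz1E]; exact (hD1 d hd).2.1,
      fun p hp hpd => ((hD1 d hd).2.2 p hp hpd).2⟩)
    (fun d hd => ⟨(hD2 d hd).1, (hD2 d hd).2.1,
      fun p hp hpd => ((hD2 d hd).2.2 p hp hpd).1⟩)
    b K M hb1 hK1 (by
      refine le_trans ?_ hMA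
      apply Nat.pow_le_pow_right (by omega)
      omega) w' hw'01
  -- the main term
  have hsm : ∀ m ∈ Ico M (2 * M), sg D2 (b * m) ≤ c1 * (Real.log z1 / Real.log z) := by
    intro m hm
    rw [mem_Ico] at hm
    have hbm : b * m ≠ 0 := Nat.mul_ne_zero (by omega) (by omega)
    have h1 := hs2 (b * m) hbm
    have h2 := hPA z1 z (b * m) h4z1 hz1z hbm
    have hbm2 : b * m ≤ 2 ^ (2 * n + 2) := by
      have h3 : b ≤ 2 ^ (n + 1) := by
        calc b = b ^ 1 := (pow_one b).symm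
          _ ≤ b ^ 2 := Nat.pow_le_pow_right hb1 (by norm_num)
          _ ≤ _ := hb2
      have h4 : m ≤ 2 ^ (n + 1) := by
        have h5 : M ≤ 2 ^ n := by
          calc M = M ^ 1 := (pow_one M).symm
            _ ≤ M ^ 8 := Nat.pow_le_pow_right hM1 (by norm_num)
            _ ≤ _ := hM8
        rw [pow_succ]
        omega
      calc b * m ≤ 2 ^ (n + 1) * 2 ^ (n + 1) := Nat.mul_le_mul h3 h4
        _ = 2 ^ (2 * n + 2) := by rw [← pow_add]; congr 1; ring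
    have h3 := card_pd z1 z (b * m) (2 * n + 2) hbm hbm2
    set cd := ((Ioc z1 z).filter (fun p => p.Prime ∧ p ∣ b * m)).card
    have h4 : 2 * (cd : ℝ) / z1 ≤ 4 := by
      rw [div_le_iff₀ (by linarith only [hz1R])]
      have h5 : (cd : ℝ) ≤ 2 * z1 := by
        have : cd ≤ 2 * z1 := by omega
        exact_mod_cast this
      linarith only [h5]
    have h5 : Real.exp (2 * (cd : ℝ) / z1) ≤ Real.exp 4 := Real.exp_le_exp.mpr h4
    calc sg D2 (b * m) ≤ C0 * _ := h1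
      _ ≤ C0 * (CP * (Real.log z1 / Real.log z) * Real.exp (2 * (cd : ℝ) / z1)) := by gcongr
      _ ≤ C0 * (CP * (Real.log z1 / Real.log z) * Real.exp 4) := by gcongr
      _ = c1 * (Real.log z1 / Real.log z) := by rw [hc1]; ring
  have hL : ∀ k ∈ Icc 1 K, w' k ≠ 0 → ∑ m ∈ Ico M (2 * M), SS D1 (b * m * k + 1) ≤
      M * c2 / Real.log z1 := by
    intro k hk hwk
    rw [mem_Icc] at hk
    have hkp : k.Prime ∧ z < k := by
      by_contra hcon
      apply hwk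
      simp only [hw']
      rw [if_neg hcon]
    have hbk : b * k ≠ 0 := Nat.mul_ne_zero (by omega) (by omega)
    have h1 := hSum D1 (n ^ (30 * E)) (fun d hd => ⟨(hD1 d hd).1, by
      rw [← hz1E]; exact (hD1 d hd).2.1⟩) b k M hb1 hk.1 hM1
    have h2 := hs1 (b * k) hbk
    have h3 := hPA 4 z1 (b * k) le_rfl h4z1 hbk
    have h4 := card_bk z1 b k hb hkp.1 (by omega)
    set cd := ((Ioc 4 z1).filter (fun p => p.Prime ∧ p ∣ b * k)).card
    have h5 : Real.exp (2 * (cd : ℝ) / (4 : ℕ)) ≤ Real.exp (1 / 2) := by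
      apply Real.exp_le_exp.mpr
      have : (cd : ℝ) ≤ 1 := by exact_mod_cast h4
      push_cast
      linarith only [this]
    have h6 : sg D1 (b * k) ≤ C0 * CP * Real.log 4 * Real.exp (1 / 2) / Real.log z1 := by
      calc sg D1 (b * k) ≤ C0 * _ := h2
        _ ≤ C0 * (CP * (Real.log (4 : ℕ) / Real.log z1) * Real.exp (2 * (cd : ℝ) / (4 : ℕ))) := by
            gcongr
        _ ≤ C0 * (CP * (Real.log (4 : ℕ) / Real.log z1) * Real.exp (1 / 2)) := by
            have : 0 ≤ Real.log ((4 : ℕ) : ℝ) := Real.log_natCast_nonneg _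
            gcongr
        _ = C0 * CP * Real.log 4 * Real.exp (1 / 2) / Real.log z1 := by
            push_cast
            ring
    have h7 : ((n ^ (30 * E) : ℕ) : ℝ) ≤ M / Real.log z1 := by
      rw [le_div_iff₀ hlz1]
      have h8 : Real.log z1 ≤ z1 := (Real.log_le_sub_one_of_pos (by linarith only [hz1R])).trans (by linarith)
      have h9 : n ^ (30 * E) * z1 ≤ M := by
        refine le_trans ?_ hMA
        rw [hz1, ← pow_add]
        apply Nat.pow_le_pow_right (by omega)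
        omega
      have h10 : ((n ^ (30 * E) : ℕ) : ℝ) * z1 ≤ M := by exact_mod_cast h9
      calc ((n ^ (30 * E) : ℕ) : ℝ) * Real.log z1 ≤ ((n ^ (30 * E) : ℕ) : ℝ) * z1 := by gcongr
        _ ≤ M := h10
    have h8 := (abs_le.mp h1).2
    calc ∑ m ∈ Ico M (2 * M), SS D1 (b * m * k + 1) ≤
          M * sg D1 (b * k) + ((n ^ (30 * E) : ℕ) : ℝ) := by linarith only [h8]
      _ ≤ M * (C0 * CP * Real.log 4 * Real.exp (1 / 2) / Real.log z1) + M / Real.log z1 := by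
          gcongr
      _ = M * c2 / Real.log z1 := by rw [hc2]; ring
  have hmain := main_term (D2 := D2) (b := b) (M := M) (K := K) hS1
    (show 0 ≤ c1 * (Real.log z1 / Real.log z) by positivity) hsm w' (fun k => (hw'01 k).1) hL
  -- the sum of the weights
  have hws : ∑ k ∈ Icc 1 K, w' k ≤ ∑ k ∈ (Icc 1 K).filter Nat.Prime, w k := by
    rw [Finset.sum_filter]
    refine Finset.sum_le_sum fun k _ => ?_
    simp only [hw']
    by_cases hk : k.Prime
    · by_cases hzk : z < k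
      · rw [if_pos ⟨hk, hzk⟩, if_pos hk]
      · rw [if_neg (fun h => hzk h.2), if_pos hk]
        exact (hw k).1
    · rw [if_neg (fun h => hk h.1), if_neg hk]
  have hws0 : 0 ≤ ∑ k ∈ Icc 1 K, w' k := Finset.sum_nonneg fun k _ => (hw'01 k).1
  have hcoef : c1 * (Real.log z1 / Real.log z) * (M * c2 / Real.log z1) ≤
      c1 * c2 * (2 * (16 * (E + 1)) / Real.log 2) * (M / n) := by
    have h1 : c1 * (Real.log z1 / Real.log z) * (M * c2 / Real.log z1) =
        c1 * c2 * M * (1 / Real.log z) := by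
      field_simp
    rw [h1, hlogz]
    have h2 : (n : ℝ) ≤ 2 * (16 * (E + 1)) * ((n / kap : ℕ) : ℝ) := by
      have h3 : n < kap * (n / kap + 1) := Nat.lt_mul_div_succ n (by omega)
      have h4 : 1 ≤ n / kap := (Nat.le_div_iff_mul_le (by omega)).2 (by omega)
      have h5 : n ≤ 2 * kap * (n / kap) := by nlinarith only [h3, h4]
      have h6 : (n : ℝ) ≤ 2 * (kap : ℝ) * ((n / kap : ℕ) : ℝ) := by exact_mod_cast h5
      have h7 : (kap : ℝ) = 16 * (E + 1) := by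
        rw [hkapdef]
        push_cast
        ring
      rw [h7] at h6
      exact h6
    have hnk : (0 : ℝ) < ((n / kap : ℕ) : ℝ) := by
      have h4 : 1 ≤ n / kap := (Nat.le_div_iff_mul_le (by omega)).2 (by omega)
      exact_mod_cast h4
    have h3 : 1 / (((n / kap : ℕ) : ℝ) * Real.log 2) ≤ 2 * (16 * (E + 1)) / Real.log 2 / n := by
      rw [div_div, div_le_div_iff₀ (by positivity) (by positivity)]
      calc 1 * (Real.log 2 * n) ≤
          1 * (Real.log 2 * (2 * (16 * (E + 1)) * ((n / kap : ℕ) : ℝ))) := by gcongr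
        _ = 2 * (16 * (E + 1)) * (((n / kap : ℕ) : ℝ) * Real.log 2) := by ring
    calc c1 * c2 * M * (1 / (((n / kap : ℕ) : ℝ) * Real.log 2)) ≤
        c1 * c2 * M * (2 * (16 * (E + 1)) / Real.log 2 / n) := by gcongr
      _ = _ := by ring
  have hBpos : 0 < (2 : ℝ) ^ n / (b * (n : ℝ) ^ 10) := by
    have : (0 : ℝ) < b := by exact_mod_cast hb1
    positivity
  refine hred.trans ?_
  calc _ ≤ c1 * (Real.log z1 / Real.log z) * (M * c2 / Real.log z1) * ∑ k ∈ Icc 1 K, w' k +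
        1 / 2 * (2 ^ n / (b * (n : ℝ) ^ 10)) + 1 / 4 * (2 ^ n / (b * (n : ℝ) ^ 10)) := by
        rw [hsplit]
        exact add_le_add (add_le_add hmain (herr2.trans herr)) hMz
    _ ≤ c1 * c2 * (2 * (16 * (E + 1)) / Real.log 2) * (M / n) *
        ∑ k ∈ (Icc 1 K).filter Nat.Prime, w k + 2 ^ n / (b * (n : ℝ) ^ 10) := by
        have h1 : c1 * (Real.log z1 / Real.log z) * (M * c2 / Real.log z1) *
            ∑ k ∈ Icc 1 K, w' k ≤ c1 * c2 * (2 * (16 * (E + 1)) / Real.log 2) * (M / n) *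
            ∑ k ∈ (Icc 1 K).filter Nat.Prime, w k := by gcongr
        linarith only [hBpos, h1]

end Pool.Agent.Helper14.Tot
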